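import Pool.Agent.L5helper16.LG.Defs4
import Pool.Agent.L5helper84.LG.A4

/-! Project LG (helper16): C5, the product of Mertens over an interval, lower bound. -/

set_option autoImplicit false

namespace Pool.Agent.L5helper1.LG

open Finset Filter Topology
open Pool.Agent.L5helper16.LG

theorem c5 : St_C5 := by
  intro η hη
  set L : ℝ := Real.exp (-Real.eulerMascheroniConstant) with hL
  have hLpos : 0 < L := Real.exp_pos _
  set ε : ℝ := η / (2 + η) with hε
  have h2η : (0:ℝ) < 2 + η := by linarith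
  have hεpos : 0 < ε := div_pos hη h2η
  have hεlt : ε < 1 := by
    rw [hε, div_lt_one h2η]; linarith
  have hkey : (1 - η) * (1 + ε) ≤ 1 - ε := by
    have h1 : 1 - ε - (1 - η) * (1 + ε) = 2 * η ^ 2 / (2 + η) := by
      rw [hε]; field_simp; ring
    have h2 : 0 ≤ 2 * η ^ 2 / (2 + η) := by positivity
    linarith
  have hm := Pool.Agent.L5helper2.RS.Vp_mertens
  have hlo : ∀ᶠ n : ℕ in atTop, (1 - ε) * L < Pool.Agent.L5helper2.RS.Vp n * Real.log n :=
    hm.eventually (lt_mem_nhds (by nlinarith))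
  have hhi : ∀ᶠ n : ℕ in atTop, Pool.Agent.L5helper2.RS.Vp n * Real.log n < (1 + ε) * L :=
    hm.eventually (gt_mem_nhds (by nlinarith))
  obtain ⟨D, hD⟩ := (hlo.and hhi).exists_forall_of_atTop
  refine ⟨max D 2, fun z y hz hzy => ?_⟩
  have hz2 : 2 ≤ z := (le_max_right _ _).trans hz
  have hzD : D ≤ z := (le_max_left _ _).trans hz
  have hlz : 0 < Real.log z := Real.log_pos (by exact_mod_cast (by omega : 1 < z))
  have hly : 0 < Real.log y := Real.log_pos (by exact_mod_cast (by omega : 1 < y))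
  have h1 := (hD z hzD).2
  have h2 := (hD y (hzD.trans hzy)).1
  have hVz := Pool.Agent.L5helper2.RS.Vp_pos z
  have hsplit := Pool.Agent.L5helper84.LG.vv_split hzy
  have hVV : VV (prI z y) = Pool.Agent.L5helper2.RS.Vp y / Pool.Agent.L5helper2.RS.Vp z := by
    rw [← hsplit]; field_simp
  rw [hVV, le_div_iff₀ hVz]
  have e1 : (1 - η) * (Real.log z / Real.log y) * Pool.Agent.L5helper2.RS.Vp z
      = (1 - η) * (Pool.Agent.L5helper2.RS.Vp z * Real.log z) / Real.log y := by
    field_simp
  rw [e1, div_le_iff₀ hly]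
  have h0 : 0 < Pool.Agent.L5helper2.RS.Vp z * Real.log z := mul_pos hVz hlz
  rcases le_total 0 (1 - η) with h | h
  · have h3 : (1 - η) * (Pool.Agent.L5helper2.RS.Vp z * Real.log z) ≤ (1 - η) * ((1 + ε) * L) :=
      mul_le_mul_of_nonneg_left h1.le h
    have h4 : (1 - η) * ((1 + ε) * L) ≤ (1 - ε) * L := by
      rw [← mul_assoc]
      exact mul_le_mul_of_nonneg_right hkey hLpos.le
    linarith
  · have h3 : (1 - η) * (Pool.Agent.L5helper2.RS.Vp z * Real.log z) ≤ 0 :=
      mul_nonpos_of_nonpos_of_nonneg h h0.le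
    have h4 : 0 < (1 - ε) * L := mul_pos (by linarith) hLpos
    linarith

end Pool.Agent.L5helper1.LG
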